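import Mathlib
import Pool.Agent.H89.AM.Fin

/-!
# MP_cda23d_nt: nonsplit primes and the Szpiro ratio 
-/

set_option autoImplicit false

namespace Pool.Agent.Results.MP_cda23d_nt.BoundedSzpiroRatio

open Pool.Agent.H27.SU Pool.Agent.H26.EP Pool.Agent.H85.TC Pool.Agent.H58.KU

/-- **Theorem.** For an elliptic curve `E/ℚ` without complex multiplication let `j = a/b ≠ 0, 1728` in lowest terms, `H = max(|a|, b)`,
`m = a - 1728 b`; let `N = twistConductor j` be the product of `ℓ` over the primes `ℓ ≥ 5` dividing `b`, of `ℓ²` over the primes `ℓ ≥ 5` dividing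
`a` with `3 ∤ v_ℓ(a)` and of `q²` over the primes `q ≥ 5` with `v_q(m)` odd (the least prime-to-6 part of a conductor among the quadratic
twists of `E`), and let `rad(n)` be the product of the primes dividing `n`.  A prime `p` is nonsplit for `E` if the image of
`ρ_{E,p}` is contained in the normaliser of a nonsplit Cartan subgroup.
* (1) For all real `σ` and `K` there is `p₀` such that no prime `p ≥ p₀` is nonsplit for any such `E` with `H ≤ K N^σ`.
* (2) There are absolute constants `c > 0` and `p₀` such that for every such `E` and every nonsplit prime `p ≥ p₀`, with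
  `ε = exp(-c (log p)^(1/5))`: the product of the `q^(v_q(m))` over the primes `q ≥ 5`, `q ≠ p`, with `v_q(m)` odd is at most `H^ε`;
  `N ≤ H^ε`; and `rad(a b m) ≤ H^(5/6 + ε)`.
* (3) (conditional) If a weak form of the abc conjecture holds (`z ≤ K rad(x y z)^θ` for all coprime positive integers `x + y = z`, for some
  `θ < 6/5` and `K`), then there is `p₀` such that no prime `p ≥ p₀` is nonsplit for any such `E`. -/
theorem result :
    (∀ σ K : ℝ, ∃ p₀ : ℕ, ∀ (E : WeierstrassCurve ℚ) [E.IsElliptic], NoComplexMult E → E.j ≠ 0 → E.j ≠ 1728 →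
      height E.j ≤ K * (twistConductor E.j : ℝ) ^ σ → ∀ (p : ℕ) [Fact p.Prime], p₀ ≤ p → ¬ InNonsplitNormaliser E p) ∧
    (∃ (c : ℝ) (p₀ : ℕ), 0 < c ∧ ∀ (E : WeierstrassCurve ℚ) [E.IsElliptic], NoComplexMult E → E.j ≠ 0 → E.j ≠ 1728 →
      ∀ (p : ℕ) [Fact p.Prime], p₀ ≤ p → InNonsplitNormaliser E p →
      partOver (E.j.num - 1728 * E.j.den) (fun q => 5 ≤ q ∧ q ≠ p ∧
        ¬ 2 ∣ padicValNat q (E.j.num - 1728 * E.j.den).natAbs) ≤ height E.j ^ Real.exp (-c * Real.log p ^ (1 / 5 : ℝ)) ∧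
      (twistConductor E.j : ℝ) ≤ height E.j ^ Real.exp (-c * Real.log p ^ (1 / 5 : ℝ)) ∧
      (rad (E.j.num * E.j.den * (E.j.num - 1728 * E.j.den)) : ℝ) ≤
        height E.j ^ (5 / 6 + Real.exp (-c * Real.log p ^ (1 / 5 : ℝ)))) ∧
    (∀ θ K : ℝ, θ < 6 / 5 →
      (∀ x y z : ℕ, 0 < x → 0 < y → x + y = z → Nat.Coprime x y → (z : ℝ) ≤ K * (rad ((x * y * z : ℕ) : ℤ) : ℝ) ^ θ) →
      ∃ p₀ : ℕ, ∀ (E : WeierstrassCurve ℚ) [E.IsElliptic], NoComplexMult E → E.j ≠ 0 → E.j ≠ 1728 →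
        ∀ (p : ℕ) [Fact p.Prime], p₀ ≤ p → ¬ InNonsplitNormaliser E p) := by
  obtain ⟨⟨c, b, p₀, hc, h1⟩, h2, h3⟩ := Pool.Agent.H89.AM.ax_hand
  exact ⟨h2, ⟨c, p₀, hc, fun E _ hCM hj0 hj1 p _ hp hE => (h1 E hCM hj0 hj1 p hp hE).2⟩, h3⟩

end Pool.Agent.Results.MP_cda23d_nt.BoundedSzpiroRatio
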