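import Mathlib
import Pool.Agent.H58.RG.Cor2

/-!
# MP_cda23d_nt: elliptic curves over the rational numbers with cube-free numerator of the j-invariant
-/

set_option autoImplicit false

namespace Pool.Agent.Results.MP_cda23d_nt.CubeFreeNumerator

open Pool.Agent.H27.SU

/-- **Theorem.** Let `E/ℚ` be an elliptic curve and `j(E) = a/b` in lowest terms (`a = E.j.num`, `b = E.j.den > 0`).

(1) If `j(E) ≠ 0, 1728` and `p ≥ 29` is a prime such that the image of `ρ_{E,p}` is contained in the normaliser of a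
nonsplit Cartan subgroup, then `A⁴ 2^min(v₂(a), 12) ≤ 18⁶ max(|a|, |a - 1728 b|)`, where `A` is the product of
`ℓ^v_ℓ(a)` over the primes `ℓ ≥ 5`, `ℓ ≠ p`, dividing `a` with `3 ∤ v_ℓ(a)`, or with `ℓ = 1 mod 3` and `4 ℓ < p²`; and
if `p` divides `a` then `p³` divides `a`.

(2) So no prime `p ≥ 29` has this property if `A₀ > 500 max(|a|, b)^(1/4)`, where `A₀` is the product of `ℓ^v_ℓ(a)` over
the primes `ℓ ≥ 5` with `v_ℓ(a) = 1` or `2`.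

(3) No prime `p ≥ 29` has this property if `a` is divisible by no cube of a prime and `b = 1` or `10¹⁵ b ≤ a⁴`; in
particular if `j(E)` is a cube-free integer. -/
theorem result :
    (∀ (E : WeierstrassCurve ℚ) [E.IsElliptic] (p : ℕ) [Fact p.Prime],
      E.j ≠ 0 → E.j ≠ 1728 → 29 ≤ p → InNonsplitNormaliser E p →
      (∏ ℓ ∈ E.j.num.natAbs.primeFactors.filter (fun ℓ => 5 ≤ ℓ ∧ ℓ ≠ p ∧
          (¬ 3 ∣ padicValNat ℓ E.j.num.natAbs ∨ (ℓ % 3 = 1 ∧ 4 * ℓ < p ^ 2))),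
        (ℓ : ℝ) ^ (4 * padicValNat ℓ E.j.num.natAbs)) *
          2 ^ (min (padicValNat 2 E.j.num.natAbs) 12) ≤
        18 ^ 6 * max |(E.j.num : ℝ)| |(E.j.num : ℝ) - 1728 * E.j.den| ∧
      ((p : ℤ) ∣ E.j.num → (p : ℤ) ^ 3 ∣ E.j.num)) ∧
    (∀ (E : WeierstrassCurve ℚ) [E.IsElliptic],
      (500 : ℝ) ^ 4 * max |(E.j.num : ℝ)| E.j.den <
        (∏ ℓ ∈ E.j.num.natAbs.primeFactors.filter
            (fun ℓ => 5 ≤ ℓ ∧ padicValNat ℓ E.j.num.natAbs < 3),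
          (ℓ : ℝ) ^ padicValNat ℓ E.j.num.natAbs) ^ 4 →
      ∀ (p : ℕ) [Fact p.Prime], 29 ≤ p → ¬ InNonsplitNormaliser E p) ∧
    (∀ (E : WeierstrassCurve ℚ) [E.IsElliptic],
      (∀ ℓ : ℕ, ℓ.Prime → ¬ (ℓ : ℤ) ^ 3 ∣ E.j.num) →
      (E.j.den = 1 ∨ (10 : ℤ) ^ 15 * E.j.den ≤ E.j.num ^ 4) →
      ∀ (p : ℕ) [Fact p.Prime], 29 ≤ p → ¬ InNonsplitNormaliser E p) :=
  ⟨fun E _ p _ h0 h1 hp hE =>
      ⟨Pool.Agent.H58.RG.runge3 E h0 h1 p hp hE, Pool.Agent.H58.RG.cube_dvd E h0 p hp hE⟩,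
    fun E _ h p _ hp => Pool.Agent.H58.RG.crit E h p hp,
    fun E _ h hd p _ hp hE => Pool.Agent.H58.RG.cube_free E h hd p hp hE
      (Pool.Agent.H26.RG.three_le_val_j E p hp hE)⟩

end Pool.Agent.Results.MP_cda23d_nt.CubeFreeNumerator
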