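import Pool.Agent.H58.NC.F3

/-!
# MP_cda23d_nt: the number of the nonsplit primes of the elliptic curves with integral `j`-invariant is bounded

There is an absolute constant `C` such that for every elliptic curve `E/ℚ` without complex multiplication whose `j`-invariant is an
integer at most `C` primes are nonsplit.  Everything is in the Lean.
-/

set_option autoImplicit false

namespace Pool.Agent.Results.MP_cda23d_nt.FewNonsplitPrimes

open WeierstrassCurve Pool.Agent.H27.SU Pool.Agent.H26.EP Pool.Agent.H58.NC

theorem result : ∃ C : ℕ, ∀ (E : WeierstrassCurve ℚ) [E.IsElliptic] (z : ℤ), NoComplexMult E → E.j = z →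
    (NonsplitPrimes E).Finite ∧ (NonsplitPrimes E).ncard ≤ C :=
  Pool.Agent.H58.NC.bounded

end Pool.Agent.Results.MP_cda23d_nt.FewNonsplitPrimes
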