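import Pool.Agent.H58.PB.F2

/-!
# MP_cda23d_nt: the heights of the integral points of `X_ns^+(p)` are polynomial in `p`

If the prime `p ≥ 7`, not of the form `2 ^ k + 1`, is nonsplit for an elliptic curve `E/ℚ` whose `j`-invariant is an integer `z`,
then `log |z| ≤ C p ^ C` with an absolute constant `C`; with two consequences (the number of the exceptional integers for one
`p`; both bounds between `p` and `log |z|` and the cubeful shape of `z`).  Everything is in the Lean.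
-/

set_option autoImplicit false

namespace Pool.Agent.Results.MP_cda23d_nt.PolynomialHeight

open WeierstrassCurve Pool.Agent.H27.SU Pool.Agent.H26.EP Pool.Agent.H90.IN Pool.Agent.H58.PB

theorem result :
    (∃ C : ℕ, ∀ (E : WeierstrassCurve ℚ) [E.IsElliptic] (p : ℕ) [Fact p.Prime], 7 ≤ p → (∀ k : ℕ, p ≠ 2 ^ k + 1) →
      InNonsplitNormaliser E p → ∀ z : ℤ, E.j = z → Real.log |(z : ℝ)| ≤ C * (p : ℝ) ^ C) ∧
    (∃ C : ℝ, ∀ (p : ℕ) [Fact p.Prime], 7 ≤ p → (∀ k : ℕ, p ≠ 2 ^ k + 1) →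
      AtMost (IntegralExceptions p) (C * (p : ℝ) ^ 8)) ∧
    (∀ ε : ℝ, 0 < ε → ∃ (C δ : ℝ), 0 < δ ∧ ∀ (E : WeierstrassCurve ℚ) [E.IsElliptic] (p : ℕ) [Fact p.Prime] (z : ℤ),
      NoComplexMult E → E.j = z → z ≠ 0 → z ≠ 1728 → 29 ≤ p → (∀ k : ℕ, p ≠ 2 ^ k + 1) → InNonsplitNormaliser E p →
      Real.log (|(z : ℝ)| + 3) ^ δ ≤ C * p ∧ (p : ℝ) ≤ C * Real.log (|(z : ℝ)| + 3) ^ (1 + ε) ∧
      (p : ℝ) ^ (padicValNat p z.natAbs - 3) *
        partOver z (fun ℓ => 5 ≤ ℓ ∧ ℓ ≠ p ∧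
          (¬ 3 ∣ padicValNat ℓ z.natAbs ∨ (ℓ % 3 = 1 ∧ 4 * ℓ < p ^ 2))) ≤
      Real.exp (C * Real.log (|(z : ℝ)| + 3) ^ (1 - δ))) :=
  Pool.Agent.H58.PB.final

end Pool.Agent.Results.MP_cda23d_nt.PolynomialHeight
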